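import Mathlib

/-!
Parseval's identity for power series with bounded coefficients on a circle of radius less than one
(adapted from the starting file `Pool.Agent.S06599`).
-/

set_option autoImplicit false
open Complex Filter Topology Metric
open Finset (range Ico)

namespace Pool.Agent.H5S_Par

/-- mean value property, real part -/
lemma avg_re (Q : ℂ → ℂ) (r : ℝ) (hc : ContinuousOn Q (sphere 0 |r|))
    (hQ : DiffContOnCl ℂ Q (ball 0 |r|)) :
    Real.circleAverage (fun z => (Q z).re) 0 r = (Q 0).re := by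
  have hi : CircleIntegrable Q 0 r := hc.circleIntegrable'
  have h1 := hQ.circleAverage
  have h2 := Complex.reCLM.circleAverage_comp_comm hi
  rw [h1] at h2
  exact h2

lemma circ_int_cont (f : ℂ → ℝ) (hf : Continuous f) (r : ℝ) : CircleIntegrable f 0 r :=
  ContinuousOn.circleIntegrable' hf.continuousOn

lemma avg_add3 (f g : ℂ → ℝ) (hf : Continuous f) (hg : Continuous g) (c r : ℝ) :
    Real.circleAverage (fun z => f z + g z + c) 0 r
      = Real.circleAverage f 0 r + Real.circleAverage g 0 r + c := by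
  have h1 := Real.circleAverage_fun_add (circ_int_cont _ (hf.add hg) r)
    (circ_int_cont (fun _ => c) continuous_const r)
  have h2 := Real.circleAverage_fun_add (circ_int_cont _ hf r) (circ_int_cont _ hg r)
  rw [Real.circleAverage_const] at h1
  simp only [Pi.add_apply] at h1 h2 ⊢
  rw [h1, ← h2]
  rfl

lemma parseval_fin (p : ℕ → ℂ) (r : ℝ) (N : ℕ) :
    Real.circleAverage (fun z => ‖∑ n ∈ range N, p n * z ^ n‖ ^ 2) 0 r
      = ∑ n ∈ range N, ‖p n‖ ^ 2 * (r ^ 2) ^ n := by
  induction N with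
  | zero =>
    simp only [Finset.range_zero, Finset.sum_empty, norm_zero]
    rw [Real.circleAverage_const]
    simp
  | succ N ih =>
    rw [Finset.sum_range_succ (n := N) (f := fun n => ‖p n‖ ^ 2 * (r ^ 2) ^ n), ← ih]
    set Q : ℂ → ℂ := fun z => p N * ∑ n ∈ range N, (starRingEnd ℂ) (p n) * ((r : ℂ) ^ 2) ^ n * z ^ (N - n) with hQ
    have hQd : Differentiable ℂ Q := by
      rw [hQ]
      fun_prop
    have hQ0 : Q 0 = 0 := by
      rw [hQ]
      simp only
      rw [Finset.sum_eq_zero, mul_zero]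
      intro n hn
      have : N - n ≠ 0 := by
        have := Finset.mem_range.mp hn
        omega
      rw [zero_pow this, mul_zero]
    have havg : Real.circleAverage (fun z => (Q z).re) 0 r = 0 := by
      rw [avg_re Q r hQd.continuous.continuousOn hQd.diffContOnCl, hQ0]
      simp
    have hpt : Set.EqOn (fun z : ℂ => ‖∑ n ∈ range (N + 1), p n * z ^ n‖ ^ 2)
        (fun z => (‖∑ n ∈ range N, p n * z ^ n‖ ^ 2 + 2 * (Q z).re) + ‖p N‖ ^ 2 * (r ^ 2) ^ N)
        (sphere 0 |r|) := by
      intro z hz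
      have hz1 : ‖z‖ = |r| := by simpa using hz
      have hz2 : (starRingEnd ℂ) z * z = (r : ℂ) ^ 2 := by
        rw [Complex.conj_mul', hz1]
        rw [← Complex.ofReal_pow, sq_abs, Complex.ofReal_pow]
      simp only
      rw [Finset.sum_range_succ]
      have h1 : (starRingEnd ℂ) (∑ n ∈ range N, p n * z ^ n) * (p N * z ^ N) = Q z := by
        rw [hQ]
        simp only
        rw [map_sum, Finset.sum_mul, Finset.mul_sum]
        apply Finset.sum_congr rfl
        intro n hn
        have hn' : n < N := Finset.mem_range.mp hn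
        rw [map_mul, map_pow, ← hz2, mul_pow]
        have : z ^ N = z ^ n * z ^ (N - n) := by
          rw [← pow_add]
          congr 1
          omega
        rw [this]
        ring
      have h2 : ∀ x y : ℂ, ‖x + y‖ ^ 2 = ‖x‖ ^ 2 + 2 * ((starRingEnd ℂ) x * y).re + ‖y‖ ^ 2 := by
        intro x y
        simp only [← Complex.normSq_eq_norm_sq, Complex.normSq_apply, Complex.mul_re,
          Complex.conj_re, Complex.conj_im, Complex.add_re, Complex.add_im]
        ring
      rw [h2, h1, norm_mul, norm_pow, hz1, mul_pow, ← pow_mul, mul_comm N 2, pow_mul, sq_abs]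
    rw [Real.circleAverage_congr_sphere hpt]
    have hc1 : Continuous (fun z : ℂ => ‖∑ n ∈ range N, p n * z ^ n‖ ^ 2) := by fun_prop
    have hc2 : Continuous (fun z : ℂ => 2 * (Q z).re) := by
      have := hQd.continuous
      fun_prop
    rw [avg_add3 _ _ hc1 hc2]
    have : Real.circleAverage (fun z : ℂ => 2 * (Q z).re) 0 r = 0 := by
      have h := Real.circleAverage_fun_smul (a := (2 : ℝ)) (f := fun z : ℂ => (Q z).re) (c := 0) (R := r)
      simp only [smul_eq_mul] at h
      rw [h, havg]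
      simp
    rw [this]
    ring

/-- the value of a power series -/
noncomputable def ev (a : ℕ → ℂ) (z : ℂ) : ℂ := ∑' n : ℕ, a n * z ^ n

lemma ev_summable_norm (a : ℕ → ℂ) (B : ℝ) (hB : ∀ n, ‖a n‖ ≤ B) (z : ℂ) (hz : ‖z‖ < 1) :
    Summable (fun n : ℕ => ‖a n * z ^ n‖) := by
  have hg : Summable (fun n : ℕ => B * ‖z‖ ^ n) :=
    (summable_geometric_of_lt_one (norm_nonneg z) hz).mul_left B
  apply Summable.of_nonneg_of_le (fun n => norm_nonneg _) _ hg
  intro n
  rw [norm_mul, norm_pow]
  exact mul_le_mul_of_nonneg_right (hB n) (by positivity)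

lemma ev_summable (a : ℕ → ℂ) (B : ℝ) (hB : ∀ n, ‖a n‖ ≤ B) (z : ℂ) (hz : ‖z‖ < 1) :
    Summable (fun n : ℕ => a n * z ^ n) :=
  (ev_summable_norm a B hB z hz).of_norm

lemma ev_bound (a : ℕ → ℂ) (B : ℝ) (hB : ∀ n, ‖a n‖ ≤ B) (z : ℂ) (hz : ‖z‖ < 1) (N : ℕ) :
    ‖∑ n ∈ range N, a n * z ^ n‖ ≤ B * (1 - ‖z‖)⁻¹ := by
  have hB0 : 0 ≤ B := (norm_nonneg _).trans (hB 0)
  calc ‖∑ n ∈ range N, a n * z ^ n‖ ≤ ∑ n ∈ range N, ‖a n * z ^ n‖ := norm_sum_le _ _
    _ ≤ ∑ n ∈ range N, B * ‖z‖ ^ n := by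
        apply Finset.sum_le_sum
        intro n _
        rw [norm_mul, norm_pow]
        exact mul_le_mul_of_nonneg_right (hB n) (by positivity)
    _ = B * ∑ n ∈ range N, ‖z‖ ^ n := (Finset.mul_sum _ _ _).symm
    _ ≤ B * (1 - ‖z‖)⁻¹ := by
        apply mul_le_mul_of_nonneg_left _ hB0
        rw [← tsum_geometric_of_lt_one (norm_nonneg z) hz]
        exact (summable_geometric_of_lt_one (norm_nonneg z) hz).sum_le_tsum _
          (fun n _ => by positivity)

lemma parseval_tendsto (a : ℕ → ℂ) (B : ℝ) (hB : ∀ n, ‖a n‖ ≤ B) (r : ℝ) (h0 : 0 ≤ r) (h1 : r < 1) :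
    Tendsto (fun N : ℕ => ∑ n ∈ range N, ‖a n‖ ^ 2 * (r ^ 2) ^ n) atTop
      (𝓝 (Real.circleAverage (fun z => ‖ev a z‖ ^ 2) 0 r)) := by
  have hmem : ∀ θ : ℝ, ‖circleMap 0 r θ‖ = r := by
    intro θ
    rw [norm_circleMap_zero, abs_of_nonneg h0]
  have key : Tendsto (fun N : ℕ => Real.circleAverage (fun z => ‖∑ n ∈ range N, a n * z ^ n‖ ^ 2) 0 r)
      atTop (𝓝 (Real.circleAverage (fun z => ‖ev a z‖ ^ 2) 0 r)) := by
    unfold Real.circleAverage
    apply Tendsto.const_smul
    apply intervalIntegral.tendsto_integral_filter_of_dominated_convergence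
      (fun _ => (B * (1 - r)⁻¹) ^ 2)
    · filter_upwards with N
      apply Continuous.aestronglyMeasurable
      fun_prop
    · filter_upwards with N
      filter_upwards with θ _
      rw [Real.norm_of_nonneg (by positivity)]
      apply pow_le_pow_left₀ (norm_nonneg _)
      have := ev_bound a B hB (circleMap 0 r θ) (by rw [hmem]; exact h1) N
      rwa [hmem] at this
    · exact intervalIntegrable_const
    · filter_upwards with θ _
      have hs := ev_summable a B hB (circleMap 0 r θ) (by rw [hmem]; exact h1)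
      exact (hs.hasSum.tendsto_sum_nat.norm).pow 2
  refine key.congr ?_
  intro N
  exact parseval_fin a r N

/-- Parseval's identity. -/
lemma parseval (a : ℕ → ℂ) (B : ℝ) (hB : ∀ n, ‖a n‖ ≤ B) (r : ℝ) (h0 : 0 ≤ r) (h1 : r < 1) :
    Real.circleAverage (fun z => ‖ev a z‖ ^ 2) 0 r = ∑' n, ‖a n‖ ^ 2 * (r ^ 2) ^ n := by
  have hs : Summable (fun n : ℕ => ‖a n‖ ^ 2 * (r ^ 2) ^ n) := by
    have hr : r ^ 2 < 1 := by nlinarith
    have hg : Summable (fun n : ℕ => B ^ 2 * (r ^ 2) ^ n) :=
      (summable_geometric_of_lt_one (by positivity) hr).mul_left _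
    apply Summable.of_nonneg_of_le (fun n => by positivity) _ hg
    intro n
    exact mul_le_mul_of_nonneg_right (pow_le_pow_left₀ (norm_nonneg _) (hB n) 2) (by positivity)
  exact tendsto_nhds_unique (parseval_tendsto a B hB r h0 h1) hs.hasSum.tendsto_sum_nat

/-- The power series with bounded coefficients is continuous on a circle of radius less than 1. -/
lemma ev_continuousOn (a : ℕ → ℂ) (B : ℝ) (hB : ∀ n, ‖a n‖ ≤ B) (r : ℝ) (h0 : 0 ≤ r) (h1 : r < 1) :
    ContinuousOn (ev a) (closedBall 0 r) := by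
  have hg : Summable (fun n : ℕ => B * r ^ n) :=
    (summable_geometric_of_lt_one h0 h1).mul_left B
  have hB0 : 0 ≤ B := (norm_nonneg _).trans (hB 0)
  apply continuousOn_tsum (u := fun n => B * r ^ n)
  · intro n
    fun_prop
  · exact hg
  · intro n z hz
    have hz1 : ‖z‖ ≤ r := by simpa using hz
    rw [norm_mul, norm_pow]
    exact mul_le_mul (hB n) (pow_le_pow_left₀ (norm_nonneg _) hz1 n) (by positivity) hB0

end Pool.Agent.H5S_Par
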