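import Mathlib
import Pool.Agent.H5S_Par.Par

/-!
# A square root gap between the lower and the upper limit of the number of representations

If `r_{A,2}(n) ≥ k ≥ 1` for all sufficiently large `n`, then `r_{A,2}(n) ≥ (1 + √k) ^ 2` for infinitely many `n`.
For `k = 1000` this gives infinitely many `n` with `r_{A,2}(n) ≥ 1065`.

Proof: let `f(z) = ∑_{a ∈ A} z ^ a`, so that `f ^ 2 = ∑ r(n) z ^ n`. Let `c` be the Abel mean of `r`, so that
`f(z) ^ 2 = c / (1 - z) + ∑ (r(n) - c) z ^ n`. The mean of `|f| ^ 2` over the circle `|z| ^ 2 = x` is `f(x)`, which is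
`√(c / (1 - x))`; the mean of `|1 - z|⁻¹` is small compared with `(1 - x) ^ (-1/2)`, and the mean of the modulus of the
last sum is at most `√(v / (1 - x))`, where `v` is the variance of `r`. So `c ≤ v`, up to an error which tends to `0`,
while `v ≤ (b - c) (c - k)` if `k ≤ r(n) ≤ b` for large `n`.
-/

set_option autoImplicit false

namespace Pool.Agent.H5S_Par.SquareRootGap

open Filter Topology Finset
open Pool.Agent.H5S_Par

/-- `r_{A,2}(n)`: the number of the ordered pairs `(a₁, a₂) ∈ A × A` with `a₁ + a₂ = n`. -/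
noncomputable def rep (A : Set ℕ) (n : ℕ) : ℕ :=
  {p : ℕ × ℕ | p.1 ∈ A ∧ p.2 ∈ A ∧ p.1 + p.2 = n}.ncard

/-! ### the power series of `(1 - z) ^ (-1/2)` -/

/-- the coefficients of `(1 - z) ^ (-1/2)` -/
noncomputable def cb (n : ℕ) : ℝ := (Nat.centralBinom n : ℝ) / 4 ^ n

lemma cb_pos (n : ℕ) : 0 < cb n := by
  unfold cb
  have : 0 < Nat.centralBinom n := Nat.centralBinom_pos n
  positivity

lemma cb_succ (n : ℕ) : ((n : ℝ) + 1) * cb (n + 1) = ((n : ℝ) + 1 / 2) * cb n := by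
  have h := Nat.succ_mul_centralBinom_succ n
  have h2 : ((n : ℝ) + 1) * (Nat.centralBinom (n + 1) : ℝ) = 2 * (2 * n + 1) * (Nat.centralBinom n : ℝ) := by
    exact_mod_cast h
  unfold cb
  rw [pow_succ, ← mul_div_assoc, h2]
  field_simp
  ring

lemma cb_sq_le (n : ℕ) : cb n ^ 2 ≤ 1 / ((n : ℝ) + 1) := by
  induction n with
  | zero => simp [cb]
  | succ n ih =>
    have h := cb_succ n
    have hn : (0 : ℝ) ≤ n := Nat.cast_nonneg n
    have h1 : cb (n + 1) = ((n : ℝ) + 1 / 2) / (n + 1) * cb n := by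
      field_simp
      linarith
    rw [h1, mul_pow]
    calc (((n : ℝ) + 1 / 2) / (n + 1)) ^ 2 * cb n ^ 2
        ≤ (((n : ℝ) + 1 / 2) / (n + 1)) ^ 2 * (1 / ((n : ℝ) + 1)) :=
          mul_le_mul_of_nonneg_left ih (by positivity)
      _ ≤ 1 / (((n + 1 : ℕ) : ℝ) + 1) := by
          push_cast
          rw [div_pow, div_mul_div_comm, div_le_div_iff₀ (by positivity) (by positivity)]
          nlinarith [sq_nonneg (n : ℝ)]

lemma cb_le_one (n : ℕ) : cb n ≤ 1 := by
  have h := cb_sq_le n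
  have h2 : 1 / ((n : ℝ) + 1) ≤ 1 := by
    rw [div_le_one (by positivity)]
    have : (0 : ℝ) ≤ n := Nat.cast_nonneg n
    linarith
  have := cb_pos n
  nlinarith

lemma cb_conv (n : ℕ) : ∑ p ∈ antidiagonal n, cb p.1 * cb p.2 = 1 := by
  have hsym : ∀ m : ℕ, ∑ p ∈ antidiagonal m, (p.2 : ℝ) * (cb p.1 * cb p.2) =
      ∑ p ∈ antidiagonal m, (p.1 : ℝ) * (cb p.1 * cb p.2) := by
    intro m
    rw [← Finset.Nat.sum_antidiagonal_swap]
    apply sum_congr rfl
    intro p _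
    simp only [Prod.fst_swap, Prod.snd_swap]
    ring
  have hn : ∀ m : ℕ, (m : ℝ) * ∑ p ∈ antidiagonal m, cb p.1 * cb p.2 =
      2 * ∑ p ∈ antidiagonal m, (p.1 : ℝ) * (cb p.1 * cb p.2) := by
    intro m
    rw [two_mul]
    nth_rewrite 2 [← hsym m]
    rw [← sum_add_distrib, mul_sum]
    apply sum_congr rfl
    intro p hp
    rw [HasAntidiagonal.mem_antidiagonal] at hp
    rw [← hp]
    push_cast
    ring
  have hT : ∀ m : ℕ, ∑ p ∈ antidiagonal (m + 1), (p.1 : ℝ) * (cb p.1 * cb p.2) =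
      ∑ p ∈ antidiagonal m, (p.1 : ℝ) * (cb p.1 * cb p.2) + 1 / 2 * ∑ p ∈ antidiagonal m, cb p.1 * cb p.2 := by
    intro m
    rw [Finset.Nat.sum_antidiagonal_succ, mul_sum, ← sum_add_distrib]
    simp only [Nat.cast_zero, zero_mul, zero_add]
    apply sum_congr rfl
    intro p _
    have := cb_succ p.1
    push_cast
    calc ((p.1 : ℝ) + 1) * (cb (p.1 + 1) * cb p.2) = (((p.1 : ℝ) + 1) * cb (p.1 + 1)) * cb p.2 := by ring
      _ = _ := by rw [this]; ring
  induction n with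
  | zero => simp [cb]
  | succ n ih =>
    have h1 := hn (n + 1)
    rw [hT n, mul_add, ← hn n, ih] at h1
    push_cast at h1
    have hpos : (0 : ℝ) < (n : ℝ) + 1 := by positivity
    have h2 : ((n : ℝ) + 1) * ∑ p ∈ antidiagonal (n + 1), cb p.1 * cb p.2 = ((n : ℝ) + 1) * 1 := by
      rw [h1]; ring
    exact mul_left_cancel₀ hpos.ne' h2

/-! ### products of power series -/

lemma ev_mul (u v : ℕ → ℝ) (B C : ℝ) (hu : ∀ n, |u n| ≤ B) (hv : ∀ n, |v n| ≤ C) (z : ℂ) (hz : ‖z‖ < 1) :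
    ev (fun n => (u n : ℂ)) z * ev (fun n => (v n : ℂ)) z =
      ev (fun n => ((∑ p ∈ antidiagonal n, u p.1 * v p.2 : ℝ) : ℂ)) z := by
  unfold ev
  rw [tsum_mul_tsum_eq_tsum_sum_antidiagonal_of_summable_norm
    (ev_summable_norm (fun n => (u n : ℂ)) B (fun n => by rw [Complex.norm_real]; exact hu n) z hz)
    (ev_summable_norm (fun n => (v n : ℂ)) C (fun n => by rw [Complex.norm_real]; exact hv n) z hz)]
  apply tsum_congr
  intro n
  simp only
  rw [Complex.ofReal_sum, sum_mul]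
  apply sum_congr rfl
  intro p hp
  rw [HasAntidiagonal.mem_antidiagonal] at hp
  rw [← hp, pow_add, Complex.ofReal_mul]
  ring

lemma real_mul (u v : ℕ → ℝ) (B C : ℝ) (hu : ∀ n, |u n| ≤ B) (hv : ∀ n, |v n| ≤ C) (x : ℝ)
    (hx0 : 0 ≤ x) (hx : x < 1) :
    (∑' n, u n * x ^ n) * (∑' n, v n * x ^ n) =
      ∑' n, (∑ p ∈ antidiagonal n, u p.1 * v p.2) * x ^ n := by
  have hs : ∀ (w : ℕ → ℝ) (D : ℝ), (∀ n, |w n| ≤ D) → Summable (fun n => ‖w n * x ^ n‖) := by
    intro w D hw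
    apply Summable.of_nonneg_of_le (fun n => norm_nonneg _) _
      ((summable_geometric_of_lt_one hx0 hx).mul_left D)
    intro n
    rw [norm_mul, norm_pow, Real.norm_eq_abs, Real.norm_eq_abs, abs_of_nonneg hx0]
    exact mul_le_mul_of_nonneg_right (hw n) (by positivity)
  rw [tsum_mul_tsum_eq_tsum_sum_antidiagonal_of_summable_norm (hs u B hu) (hs v C hv)]
  apply tsum_congr
  intro n
  rw [sum_mul]
  apply sum_congr rfl
  intro p hp
  rw [HasAntidiagonal.mem_antidiagonal] at hp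
  rw [← hp, pow_add]
  ring

/-! ### the main inequality -/

lemma main_ineq (ind s : ℕ → ℝ) (h01 : ∀ n, ind n = 0 ∨ ind n = 1)
    (hs : ∀ n, s n = ∑ p ∈ antidiagonal n, ind p.1 * ind p.2) (B : ℝ) (hB : ∀ n, |s n| ≤ B)
    (x : ℝ) (hx0 : 0 < x) (hx1 : x < 1) (c : ℝ) (hc : 0 ≤ c) (t : ℝ) (ht : 0 < t) :
    ∑' n, ind n * x ^ n ≤ (t * ∑' n, (s n - c) ^ 2 * x ^ n + t⁻¹) / 2 + c * ∑' n, cb n ^ 2 * x ^ n := by
  set r := Real.sqrt x with hr
  have hr0 : 0 ≤ r := Real.sqrt_nonneg x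
  have hr2 : r ^ 2 = x := Real.sq_sqrt hx0.le
  have hr1 : r < 1 := by
    by_contra hcon
    push Not at hcon
    nlinarith
  have hind : ∀ n, |ind n| ≤ 1 := by
    intro n
    rcases h01 n with h | h <;> rw [h] <;> simp
  have hcb : ∀ n, |cb n| ≤ 1 := fun n => by
    rw [abs_of_pos (cb_pos n)]
    exact cb_le_one n
  have hE : ∀ n, |s n - c| ≤ B + c := fun n => by
    calc |s n - c| ≤ |s n| + |c| := abs_sub _ _
      _ ≤ B + c := by rw [abs_of_nonneg hc]; linarith [hB n]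
  -- Parseval
  have P : ∀ (w : ℕ → ℝ) (D : ℝ), (∀ n, |w n| ≤ D) →
      Real.circleAverage (fun z => ‖ev (fun n => (w n : ℂ)) z‖ ^ 2) 0 r = ∑' n, w n ^ 2 * x ^ n := by
    intro w D hw
    rw [parseval (fun n => (w n : ℂ)) D (fun n => by rw [Complex.norm_real]; exact hw n) r hr0 hr1]
    apply tsum_congr
    intro n
    rw [Complex.norm_real, Real.norm_eq_abs, sq_abs, hr2]
  have hint : ∀ (w : ℕ → ℝ) (D : ℝ), (∀ n, |w n| ≤ D) →
      CircleIntegrable (fun z => ‖ev (fun n => (w n : ℂ)) z‖ ^ 2) 0 r := by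
    intro w D hw
    apply ContinuousOn.circleIntegrable hr0
    apply ContinuousOn.pow
    apply ContinuousOn.norm
    exact (ev_continuousOn _ D (fun n => by rw [Complex.norm_real]; exact hw n) r hr0 hr1).mono
      Metric.sphere_subset_closedBall
  have hF : ∑' n, ind n * x ^ n = Real.circleAverage (fun z => ‖ev (fun n => (ind n : ℂ)) z‖ ^ 2) 0 r := by
    rw [P ind 1 hind]
    apply tsum_congr
    intro n
    rcases h01 n with h | h <;> rw [h] <;> simp
  have hpt : ∀ z ∈ Metric.sphere (0 : ℂ) |r|, ‖ev (fun n => (ind n : ℂ)) z‖ ^ 2 ≤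
      (t / 2 * ‖ev (fun n => ((s n - c : ℝ) : ℂ)) z‖ ^ 2 + c * ‖ev (fun n => (cb n : ℂ)) z‖ ^ 2) + t⁻¹ / 2 := by
    intro z hz
    have hz1 : ‖z‖ < 1 := by
      have : ‖z‖ = |r| := by simpa using hz
      rw [this, abs_of_nonneg hr0]
      exact hr1
    have e1 : ev (fun n => (ind n : ℂ)) z ^ 2 = ev (fun n => ((s n : ℝ) : ℂ)) z := by
      rw [sq, ev_mul ind ind 1 1 hind hind z hz1]
      simp only [← hs]
    have e2 : ev (fun n => (cb n : ℂ)) z ^ 2 = ev (fun _ => ((1 : ℝ) : ℂ)) z := by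
      rw [sq, ev_mul cb cb 1 1 hcb hcb z hz1]
      simp only [cb_conv]
    have e3 : ev (fun n => ((s n : ℝ) : ℂ)) z = ev (fun n => ((s n - c : ℝ) : ℂ)) z +
        c * ev (fun _ => ((1 : ℝ) : ℂ)) z := by
      unfold ev
      rw [← tsum_mul_left, ← Summable.tsum_add]
      · apply tsum_congr
        intro n
        push_cast
        ring
      · exact ev_summable _ (B + c) (fun n => by rw [Complex.norm_real]; exact hE n) z hz1
      · exact (ev_summable (fun _ => ((1 : ℝ) : ℂ)) 1 (fun n => by simp) z hz1).mul_left _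
    rw [← norm_pow, e1, e3, ← e2]
    calc ‖ev (fun n => ((s n - c : ℝ) : ℂ)) z + c * ev (fun n => (cb n : ℂ)) z ^ 2‖
        ≤ ‖ev (fun n => ((s n - c : ℝ) : ℂ)) z‖ + c * ‖ev (fun n => (cb n : ℂ)) z‖ ^ 2 := by
          refine (norm_add_le _ _).trans ?_
          rw [norm_mul, norm_pow, Complex.norm_real, Real.norm_eq_abs, abs_of_nonneg hc]
      _ ≤ _ := by
          have h5 : ‖ev (fun n => ((s n - c : ℝ) : ℂ)) z‖ ≤
              t / 2 * ‖ev (fun n => ((s n - c : ℝ) : ℂ)) z‖ ^ 2 + t⁻¹ / 2 := by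
            have h6 : 0 ≤ t⁻¹ * (t * ‖ev (fun n => ((s n - c : ℝ) : ℂ)) z‖ - 1) ^ 2 := by positivity
            have h7 : t⁻¹ * (t * ‖ev (fun n => ((s n - c : ℝ) : ℂ)) z‖ - 1) ^ 2 =
                t * ‖ev (fun n => ((s n - c : ℝ) : ℂ)) z‖ ^ 2 -
                  2 * ‖ev (fun n => ((s n - c : ℝ) : ℂ)) z‖ + t⁻¹ := by
              field_simp
              ring
            linarith
          linarith
  have hi1 := hint ind 1 hind
  have hi2 := hint (fun n => s n - c) (B + c) hE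
  have hi3 := hint cb 1 hcb
  have hi2' : CircleIntegrable (fun z => t / 2 * ‖ev (fun n => ((s n - c : ℝ) : ℂ)) z‖ ^ 2) 0 r :=
    hi2.const_mul _
  have hi3' : CircleIntegrable (fun z => c * ‖ev (fun n => (cb n : ℂ)) z‖ ^ 2) 0 r :=
    hi3.const_mul _
  have hi4 : CircleIntegrable (fun z => t / 2 * ‖ev (fun n => ((s n - c : ℝ) : ℂ)) z‖ ^ 2 +
      c * ‖ev (fun n => (cb n : ℂ)) z‖ ^ 2) 0 r := hi2'.add hi3'
  have hi5 : CircleIntegrable (fun _ : ℂ => t⁻¹ / 2) 0 r := circleIntegrable_const _ _ _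
  have hmono := Real.circleAverage_mono hi1 (hi4.add hi5) hpt
  have hav : Real.circleAverage ((fun z => t / 2 * ‖ev (fun n => ((s n - c : ℝ) : ℂ)) z‖ ^ 2 +
      c * ‖ev (fun n => (cb n : ℂ)) z‖ ^ 2) + fun _ : ℂ => t⁻¹ / 2) 0 r =
      t / 2 * ∑' n, (s n - c) ^ 2 * x ^ n + c * ∑' n, cb n ^ 2 * x ^ n + t⁻¹ / 2 := by
    rw [Real.circleAverage_add hi4 hi5, Real.circleAverage_const, Real.circleAverage_fun_add hi2' hi3']
    have a1 := Real.circleAverage_fun_smul (a := t / 2)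
      (f := fun z : ℂ => ‖ev (fun n => ((s n - c : ℝ) : ℂ)) z‖ ^ 2) (c := 0) (R := r)
    have a2 := Real.circleAverage_fun_smul (a := c)
      (f := fun z : ℂ => ‖ev (fun n => (cb n : ℂ)) z‖ ^ 2) (c := 0) (R := r)
    simp only [smul_eq_mul] at a1 a2
    rw [a1, a2, P (fun n => s n - c) (B + c) hE, P cb 1 hcb]
  rw [hF]
  refine hmono.trans (le_of_eq ?_)
  rw [hav]
  ring

/-! ### the contribution of the singularity is small -/

lemma summable_bdd (w : ℕ → ℝ) (D : ℝ) (hw : ∀ n, |w n| ≤ D) (x : ℝ) (hx0 : 0 ≤ x) (hx : x < 1) :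
    Summable (fun n => w n * x ^ n) := by
  apply Summable.of_norm
  apply Summable.of_nonneg_of_le (fun n => norm_nonneg _) _
    ((summable_geometric_of_lt_one hx0 hx).mul_left D)
  intro n
  rw [norm_mul, norm_pow, Real.norm_eq_abs, Real.norm_eq_abs, abs_of_nonneg hx0]
  exact mul_le_mul_of_nonneg_right (hw n) (by positivity)

lemma lam_nonneg (x : ℝ) (hx0 : 0 ≤ x) : 0 ≤ ∑' n, cb n ^ 2 * x ^ n :=
  tsum_nonneg fun n => by positivity

lemma lam_le (x : ℝ) (hx0 : 0 ≤ x) (hx : x < 1) :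
    x * ∑' n, cb n ^ 2 * x ^ n ≤ -Real.log (1 - x) := by
  have h := Real.hasSum_pow_div_log_of_abs_lt_one (x := x) (by rw [abs_of_nonneg hx0]; exact hx)
  rw [← h.tsum_eq, ← tsum_mul_left]
  apply Summable.tsum_le_tsum _ _ h.summable
  · intro n
    have h1 := cb_sq_le n
    calc x * (cb n ^ 2 * x ^ n) = x ^ (n + 1) * cb n ^ 2 := by ring
      _ ≤ x ^ (n + 1) * (1 / ((n : ℝ) + 1)) := mul_le_mul_of_nonneg_left h1 (by positivity)
      _ = x ^ (n + 1) / ((n : ℝ) + 1) := by ring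
  · apply Summable.mul_left
    apply summable_bdd (fun n => cb n ^ 2) 1 _ x hx0 hx
    intro n
    have := cb_pos n
    have := cb_le_one n
    rw [abs_of_nonneg (by positivity)]
    nlinarith

lemma lam_tendsto : Tendsto (fun u : ℝ => Real.sqrt u * ∑' n, cb n ^ 2 * (1 - u) ^ n) (𝓝[>] 0) (𝓝 0) := by
  have h1 : Tendsto (fun u : ℝ => -2 * (Real.log u * u ^ (1 / 2 : ℝ))) (𝓝[>] 0) (𝓝 0) := by
    have := (tendsto_log_mul_rpow_nhdsGT_zero (r := 1 / 2) (by norm_num)).const_mul (-2 : ℝ)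
    simpa using this
  have hev : ∀ᶠ u : ℝ in 𝓝[>] 0, 0 < u ∧ u < 1 / 2 := by
    filter_upwards [Ioo_mem_nhdsGT (show (0 : ℝ) < 1 / 2 by norm_num)] with u hu
    exact hu
  refine tendsto_of_tendsto_of_tendsto_of_le_of_le' tendsto_const_nhds h1 ?_ ?_
  · filter_upwards [hev] with u hu
    have := lam_nonneg (1 - u) (by linarith [hu.2])
    positivity
  · filter_upwards [hev] with u hu
    have h2 := lam_le (1 - u) (by linarith [hu.2]) (by linarith [hu.1])
    rw [sub_sub_cancel] at h2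
    have h3 := lam_nonneg (1 - u) (by linarith [hu.2])
    have h4 : ∑' n, cb n ^ 2 * (1 - u) ^ n ≤ -2 * Real.log u := by nlinarith [hu.1, hu.2]
    have h5 : 0 ≤ Real.sqrt u := Real.sqrt_nonneg u
    rw [← Real.sqrt_eq_rpow]
    nlinarith [mul_le_mul_of_nonneg_left h4 h5]

/-! ### the variance -/

lemma core (ind s : ℕ → ℝ) (h01 : ∀ n, ind n = 0 ∨ ind n = 1)
    (hs : ∀ n, s n = ∑ p ∈ antidiagonal n, ind p.1 * ind p.2) (B : ℝ) (hB : ∀ n, |s n| ≤ B)
    (a b : ℝ) (n₀ : ℕ) (ha : ∀ n ≥ n₀, a ≤ s n) (hb : ∀ n ≥ n₀, s n ≤ b) :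
    4 * (a * b) ≤ (a + b - 1) ^ 2 := by
  by_contra hcon
  push Not at hcon
  obtain ⟨δ, hδ⟩ : ∃ δ, δ = a * b - (a + b - 1) ^ 2 / 4 := ⟨_, rfl⟩
  have hδ0 : 0 < δ := by rw [hδ]; linarith
  obtain ⟨C, hC⟩ : ∃ C, C = ∑ n ∈ range n₀, |(b - s n) * (s n - a)| := ⟨_, rfl⟩
  have hC0 : 0 ≤ C := by rw [hC]; exact sum_nonneg fun _ _ => abs_nonneg _
  have hB0 : 0 ≤ B := (abs_nonneg _).trans (hB 0)
  have hind : ∀ n, |ind n| ≤ 1 := by
    intro n
    rcases h01 n with h | h <;> rw [h] <;> simp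
  have hs0 : ∀ n, 0 ≤ s n := fun n => by
    rw [hs]
    apply sum_nonneg
    intro p _
    rcases h01 p.1 with h | h <;> rcases h01 p.2 with h' | h' <;> rw [h, h'] <;> simp
  obtain ⟨Y, hY⟩ : ∃ Y, Y = Real.sqrt (B + C + 1) := ⟨_, rfl⟩
  -- the inequality for all `u`
  have key : ∀ u : ℝ, 0 < u → u < 1 → δ ≤ u * (C + 1) +
      2 * Y * (B * (Real.sqrt u * ∑' n, cb n ^ 2 * (1 - u) ^ n)) +
        (B * (Real.sqrt u * ∑' n, cb n ^ 2 * (1 - u) ^ n)) ^ 2 := by
    intro u hu0 hu1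
    obtain ⟨x, hx⟩ : ∃ x, x = 1 - u := ⟨_, rfl⟩
    have hxu : 1 - x = u := by rw [hx]; ring
    have hx0 : 0 < x := by rw [hx]; linarith
    have hx1 : x < 1 := by rw [hx]; linarith
    rw [← hx]
    obtain ⟨F, hF⟩ : ∃ F, F = ∑' n, ind n * x ^ n := ⟨_, rfl⟩
    obtain ⟨L, hL⟩ : ∃ L, L = ∑' n, cb n ^ 2 * x ^ n := ⟨_, rfl⟩
    have hL0 : 0 ≤ L := by rw [hL]; exact lam_nonneg x hx0.le
    have hF0 : 0 ≤ F := by
      rw [hF]
      apply tsum_nonneg
      intro n
      rcases h01 n with h | h <;> rw [h] <;> simp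
      positivity
    have hF2 : F ^ 2 = ∑' n, s n * x ^ n := by
      rw [sq, hF, real_mul ind ind 1 1 hind hind x hx0.le hx1]
      simp only [← hs]
    have hgeo : ∑' n : ℕ, x ^ n = u⁻¹ := by
      rw [tsum_geometric_of_lt_one hx0.le hx1, hxu]
    have hsumgeo : Summable (fun n : ℕ => x ^ n) := summable_geometric_of_lt_one hx0.le hx1
    have hsums : Summable (fun n : ℕ => s n * x ^ n) := summable_bdd s B hB x hx0.le hx1
    obtain ⟨c, hc⟩ : ∃ c, c = u * F ^ 2 := ⟨_, rfl⟩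
    have hc0 : 0 ≤ c := by rw [hc]; positivity
    have hcB : c ≤ B := by
      rw [hc, hF2]
      have h1 : ∑' n, s n * x ^ n ≤ ∑' n : ℕ, B * x ^ n := by
        apply Summable.tsum_le_tsum _ hsums (hsumgeo.mul_left B)
        intro n
        exact mul_le_mul_of_nonneg_right ((le_abs_self _).trans (hB n)) (by positivity)
      rw [tsum_mul_left, hgeo] at h1
      calc u * ∑' n, s n * x ^ n ≤ u * (B * u⁻¹) := mul_le_mul_of_nonneg_left h1 hu0.le
        _ = B := by field_simp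
    -- the variance
    obtain ⟨W, hW⟩ : ∃ W, W = ∑' n, (s n - c) ^ 2 * x ^ n := ⟨_, rfl⟩
    have hW0 : 0 ≤ W := by rw [hW]; exact tsum_nonneg fun n => by positivity
    have hq : ∀ n, |(b - s n) * (s n - a)| ≤ (|b| + B) * (B + |a|) := by
      intro n
      rw [abs_mul]
      have h1 : |b - s n| ≤ |b| + B := (abs_sub _ _).trans (by linarith [hB n])
      have h2 : |s n - a| ≤ B + |a| := (abs_sub _ _).trans (by linarith [hB n])
      exact mul_le_mul h1 h2 (abs_nonneg _) (by positivity)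
    have hsumq : Summable (fun n : ℕ => (b - s n) * (s n - a) * x ^ n) := summable_bdd _ _ hq x hx0.le hx1
    have hWeq : W = (b - c) * (c - a) * u⁻¹ - ∑' n, (b - s n) * (s n - a) * x ^ n := by
      have h1 : ∀ n, (s n - c) ^ 2 * x ^ n = ((b - c) * (c - a) - c * (a + b - 2 * c)) * x ^ n -
          (b - s n) * (s n - a) * x ^ n + (a + b - 2 * c) * (s n * x ^ n) := by
        intro n
        ring
      rw [hW]
      simp only [h1]
      rw [Summable.tsum_add ((hsumgeo.mul_left _).sub hsumq) (hsums.mul_left _),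
        Summable.tsum_sub (hsumgeo.mul_left _) hsumq, tsum_mul_left, tsum_mul_left, hgeo, ← hF2]
      have h2 : F ^ 2 = c * u⁻¹ := by rw [hc]; field_simp
      rw [h2]
      ring
    have hqlow : -C ≤ ∑' n, (b - s n) * (s n - a) * x ^ n := by
      have h1 := hsumq.sum_add_tsum_nat_add n₀
      rw [← h1]
      have h2 : 0 ≤ ∑' n, (b - s (n + n₀)) * (s (n + n₀) - a) * x ^ (n + n₀) := by
        apply tsum_nonneg
        intro n
        have h3 := ha (n + n₀) (by omega)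
        have h4 := hb (n + n₀) (by omega)
        have h5 : 0 ≤ (b - s (n + n₀)) * (s (n + n₀) - a) := mul_nonneg (by linarith) (by linarith)
        positivity
      have h3 : -C ≤ ∑ n ∈ range n₀, (b - s n) * (s n - a) * x ^ n := by
        rw [hC, ← sum_neg_distrib]
        apply sum_le_sum
        intro n _
        have h4 : |(b - s n) * (s n - a) * x ^ n| ≤ |(b - s n) * (s n - a)| := by
          rw [abs_mul, abs_of_nonneg (by positivity : 0 ≤ x ^ n)]
          have : x ^ n ≤ 1 := pow_le_one₀ hx0.le hx1.le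
          nlinarith [abs_nonneg ((b - s n) * (s n - a))]
        have := neg_abs_le ((b - s n) * (s n - a) * x ^ n)
        linarith
      linarith
    have hV : u * W ≤ c - δ + u * C := by
      rw [hWeq]
      have h1 : u * ((b - c) * (c - a) * u⁻¹ - ∑' n, (b - s n) * (s n - a) * x ^ n) =
          (b - c) * (c - a) - u * ∑' n, (b - s n) * (s n - a) * x ^ n := by
        field_simp
      rw [h1]
      have h2 : (b - c) * (c - a) ≤ c - δ := by
        rw [hδ]
        nlinarith [sq_nonneg (c - (a + b - 1) / 2)]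
      have h3 := mul_le_mul_of_nonneg_left hqlow hu0.le
      linarith
    obtain ⟨y, hy⟩ : ∃ y, y = Real.sqrt (u * W + u) := ⟨_, rfl⟩
    have hy2 : y ^ 2 = u * W + u := by rw [hy]; exact Real.sq_sqrt (by positivity)
    have hy0 : 0 < y := by rw [hy]; exact Real.sqrt_pos.2 (by positivity)
    have hyY : y ≤ Y := by
      rw [hy, hY]
      apply Real.sqrt_le_sqrt
      have h5 : u * C ≤ 1 * C := mul_le_mul_of_nonneg_right hu1.le hC0
      linarith
    obtain ⟨q, hq⟩ : ∃ q, q = Real.sqrt u := ⟨_, rfl⟩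
    have hq2 : q ^ 2 = u := by rw [hq]; exact Real.sq_sqrt hu0.le
    have hq0 : 0 < q := by rw [hq]; exact Real.sqrt_pos.2 hu0
    have hmain := main_ineq ind s h01 hs B hB x hx0 hx1 c hc0 (q / y) (by positivity)
    rw [← hF, ← hL, ← hW] at hmain
    have h1 : q * F ≤ y + B * (q * L) := by
      have h2 := mul_le_mul_of_nonneg_left hmain hq0.le
      have h3 : q * ((q / y * W + (q / y)⁻¹) / 2 + c * L) = (q ^ 2 * W / y + y) / 2 + c * (q * L) := by
        field_simp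
      rw [h3, hq2] at h2
      have h4 : u * W / y ≤ y := by
        rw [div_le_iff₀ hy0]
        nlinarith
      have h5 : c * (q * L) ≤ B * (q * L) := mul_le_mul_of_nonneg_right hcB (by positivity)
      linarith
    have h2 : (q * F) ^ 2 = c := by rw [mul_pow, hq2, hc]
    have hε : 0 ≤ B * (q * L) := by positivity
    have h3 : c ≤ (y + B * (q * L)) ^ 2 := by
      rw [← h2]
      exact pow_le_pow_left₀ (by positivity) h1 2
    rw [← hL, ← hq]
    have h4 : 2 * y * (B * (q * L)) ≤ 2 * Y * (B * (q * L)) :=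
      mul_le_mul_of_nonneg_right (by linarith) hε
    have h5 : (y + B * (q * L)) ^ 2 = y ^ 2 + 2 * y * (B * (q * L)) + (B * (q * L)) ^ 2 := by ring
    rw [h5, hy2] at h3
    have h6 : u * (C + 1) = u * C + u := by ring
    rw [h6]
    linarith
  -- the limit
  have hlim : Tendsto (fun u : ℝ => u * (C + 1) +
      2 * Y * (B * (Real.sqrt u * ∑' n, cb n ^ 2 * (1 - u) ^ n)) +
        (B * (Real.sqrt u * ∑' n, cb n ^ 2 * (1 - u) ^ n)) ^ 2) (𝓝[>] 0) (𝓝 0) := by
    have h1 : Tendsto (fun u : ℝ => u * (C + 1)) (𝓝[>] 0) (𝓝 (0 * (C + 1))) :=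
      (tendsto_nhdsWithin_of_tendsto_nhds tendsto_id).mul_const _
    have h2 := (lam_tendsto.const_mul B).const_mul (2 * Y)
    have h3 := (lam_tendsto.const_mul B).pow 2
    have h4 := (h1.add h2).add h3
    simpa using h4
  have h0 : δ ≤ 0 := by
    apply ge_of_tendsto hlim
    filter_upwards [Ioo_mem_nhdsGT (show (0 : ℝ) < 1 by norm_num)] with u hu
    exact key u hu.1 hu.2
  linarith

/-! ### the representation function -/

lemma rep_eq (A : Set ℕ) [DecidablePred (· ∈ A)] (n : ℕ) : (rep A n : ℝ) =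
    ∑ p ∈ antidiagonal n, (if p.1 ∈ A then (1 : ℝ) else 0) * (if p.2 ∈ A then 1 else 0) := by
  have h : {p : ℕ × ℕ | p.1 ∈ A ∧ p.2 ∈ A ∧ p.1 + p.2 = n} =
      ((antidiagonal n).filter (fun p => p.1 ∈ A ∧ p.2 ∈ A) : Finset (ℕ × ℕ)) := by
    ext p
    simp only [Set.mem_ofPred_eq, coe_filter, HasAntidiagonal.mem_antidiagonal]
    tauto
  unfold rep
  rw [h, Set.ncard_coe_finset, card_filter]
  push_cast
  apply sum_congr rfl
  intro p _
  by_cases h1 : p.1 ∈ A <;> by_cases h2 : p.2 ∈ A <;> simp [h1, h2]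

/-- Let `A` be a set of nonnegative integers and `k ≥ 1`. If all sufficiently large `n` have at least `k`
representations as an ordered sum of two elements of `A`, then infinitely many `n` have at least `(1 + √k) ^ 2`
representations. -/
theorem result (A : Set ℕ) (k : ℕ) (hk : 1 ≤ k) (h : ∃ n₀ : ℕ, ∀ n ≥ n₀, k ≤ rep A n) :
    ∀ N : ℕ, ∃ n ≥ N, (1 + Real.sqrt k) ^ 2 ≤ (rep A n : ℝ) := by
  classical
  intro N
  by_contra hcon
  push Not at hcon
  obtain ⟨n₀, hn₀⟩ := h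
  -- the largest value which is less than `(1 + √k) ^ 2`
  obtain ⟨b, hb⟩ : ∃ b : ℕ, b + 1 = ⌈(1 + Real.sqrt k) ^ 2⌉₊ := by
    have : 0 < ⌈(1 + Real.sqrt k) ^ 2⌉₊ := Nat.ceil_pos.2 (by positivity)
    exact ⟨⌈(1 + Real.sqrt k) ^ 2⌉₊ - 1, by omega⟩
  have hblt : (b : ℝ) < (1 + Real.sqrt k) ^ 2 := Nat.lt_ceil.1 (by omega)
  have hrb : ∀ n ≥ N, rep A n ≤ b := by
    intro n hn
    have h1 := hcon n hn
    have h2 : rep A n < ⌈(1 + Real.sqrt k) ^ 2⌉₊ := Nat.lt_ceil.2 h1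
    omega
  have hkb : k ≤ b := (hn₀ (max n₀ N) (le_max_left _ _)).trans (hrb _ (le_max_right _ _))
  have hcore := core (fun n => if n ∈ A then (1 : ℝ) else 0) (fun n => (rep A n : ℝ))
    (fun n => by by_cases h : n ∈ A <;> simp [h]) (fun n => rep_eq A n)
    ((b : ℝ) + ∑ n ∈ range N, (rep A n : ℝ)) (fun n => by
      rw [abs_of_nonneg (Nat.cast_nonneg _)]
      have h0 : 0 ≤ ∑ n ∈ range N, (rep A n : ℝ) := sum_nonneg fun _ _ => Nat.cast_nonneg _
      rcases lt_or_ge n N with h1 | h1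
      · have := single_le_sum (f := fun n => (rep A n : ℝ)) (fun _ _ => Nat.cast_nonneg _) (mem_range.2 h1)
        have h2 : (0 : ℝ) ≤ b := Nat.cast_nonneg _
        linarith
      · have : (rep A n : ℝ) ≤ b := by exact_mod_cast hrb n h1
        linarith) k b (max n₀ N)
    (fun n hn => by exact_mod_cast hn₀ n (le_trans (le_max_left _ _) hn))
    (fun n hn => by exact_mod_cast hrb n (le_trans (le_max_right _ _) hn))
  have hk1 : (1 : ℝ) ≤ k := by exact_mod_cast hk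
  have hkb' : (k : ℝ) ≤ b := by exact_mod_cast hkb
  obtain ⟨u, hu⟩ : ∃ u, u = Real.sqrt k := ⟨_, rfl⟩
  obtain ⟨v, hv⟩ : ∃ v, v = Real.sqrt b := ⟨_, rfl⟩
  have hu2 : u ^ 2 = k := by rw [hu]; exact Real.sq_sqrt (by linarith)
  have hv2 : v ^ 2 = b := by rw [hv]; exact Real.sq_sqrt (by linarith)
  have hu1 : 1 ≤ u := by
    rw [hu]
    exact Real.one_le_sqrt.2 hk1
  have huv : u ≤ v := by
    rw [hu, hv]
    exact Real.sqrt_le_sqrt hkb'
  rw [← hu] at hblt
  have hv1 : v < 1 + u := by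
    by_contra hge
    push Not at hge
    nlinarith
  rw [← hu2, ← hv2] at hcore
  -- 4 u² v² ≤ (u² + v² - 1)²
  have h1 : 0 < 2 * (u * v) - (u ^ 2 + v ^ 2 - 1) := by nlinarith
  have h2 : 0 < 2 * (u * v) + (u ^ 2 + v ^ 2 - 1) := by nlinarith
  nlinarith [mul_pos h1 h2]

/-- The question: if all sufficiently large `n` have at least `1000` representations, then there is an `n` with at least
`1010` (indeed infinitely many with at least `1065`) representations. -/
theorem question (A : Set ℕ) (h : ∃ n₀ : ℕ, ∀ n ≥ n₀, 1000 ≤ rep A n) :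
    (∃ n, 1010 ≤ rep A n) ∧ ∀ N : ℕ, ∃ n ≥ N, 1065 ≤ rep A n := by
  have h1 : ∀ N : ℕ, ∃ n ≥ N, 1065 ≤ rep A n := by
    intro N
    obtain ⟨n, hn, h2⟩ := result A 1000 (by norm_num) h N
    refine ⟨n, hn, ?_⟩
    obtain ⟨w, hw⟩ : ∃ w, w = Real.sqrt ((1000 : ℕ) : ℝ) := ⟨_, rfl⟩
    rw [← hw] at h2
    have h3 : (3161 / 100 : ℝ) ≤ w := by
      rw [hw]
      apply Real.le_sqrt_of_sq_le
      norm_num
    have h6 : w ^ 2 = 1000 := by
      rw [hw, Real.sq_sqrt (by positivity)]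
      norm_num
    have h4 : (1064 : ℝ) < (rep A n : ℝ) := by nlinarith
    have h5 : 1064 < rep A n := by exact_mod_cast h4
    omega
  obtain ⟨n, _, hn⟩ := h1 0
  exact ⟨⟨n, by omega⟩, h1⟩

end Pool.Agent.H5S_Par.SquareRootGap
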